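import Mathlib

/-!
# Perfect codes in generalized Fibonacci cubes

For all `n ≥ 3` and `s ≥ 2`, every perfect code of the generalized Fibonacci cube `Γ_n(1^s)`
is a perfect code of the hypercube `Q_n`, and `n = 2^p - 1`.
-/

namespace Pool.Agent.Results.MP_87e4a0_co.PerfectCodesFibonacci

open Finset

/-- The binary string `x` of length `n` contains `1^s` as a substring, that is
`x = u 1^s v` for some (possibly empty) strings `u`, `v`. -/
def ContainsOnes {n : ℕ} (s : ℕ) (x : Fin n → Bool) : Prop :=
  ∃ u v : List Bool, List.ofFn x = u ++ List.replicate s true ++ v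

/-- The hypercube `Q_n`: binary strings of length `n`, two being adjacent when they differ in
exactly one position. -/
def hypercube (n : ℕ) : SimpleGraph (Fin n → Bool) where
  Adj x y := hammingDist x y = 1
  symm := ⟨by
    intro x y h
    rw [hammingDist_comm]
    exact h⟩
  loopless := ⟨by
    intro x h
    rw [hammingDist_self] at h
    exact absurd h (by norm_num)⟩

/-- The generalized Fibonacci cube `Γ_n(1^s)`: the subgraph of `Q_n` induced by the strings
that do not contain `1^s` as a substring. -/
def genFibCube (n s : ℕ) : SimpleGraph {x : Fin n → Bool | ¬ ContainsOnes s x} :=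
  (hypercube n).induce {x : Fin n → Bool | ¬ ContainsOnes s x}

/-- A perfect code of a graph `G`: a set `C` of vertices such that every vertex lies in the
closed neighbourhood of exactly one member of `C`. -/
def IsPerfectCode {V : Type*} (G : SimpleGraph V) (C : Set V) : Prop :=
  ∀ v : V, ∃! c : V, c ∈ C ∧ (v = c ∨ G.Adj c v)

/-! ### Flips and closed neighbourhoods -/

/-- Flip the `i`-th bit. -/
def flip {n : ℕ} (x : Fin n → Bool) (i : Fin n) : Fin n → Bool := Function.update x i (!x i)

lemma flip_self {n : ℕ} (x : Fin n → Bool) (i : Fin n) : flip x i i = !x i := by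
  simp [flip]

lemma flip_ne {n : ℕ} (x : Fin n → Bool) {i j : Fin n} (h : j ≠ i) : flip x i j = x j := by
  simp [flip, h]

lemma flip_flip {n : ℕ} (x : Fin n → Bool) (i : Fin n) : flip (flip x i) i = x := by
  funext j
  by_cases h : j = i
  · subst h; simp [flip_self]
  · rw [flip_ne _ h, flip_ne _ h]

lemma flip_comm {n : ℕ} (x : Fin n → Bool) (i j : Fin n) :
    flip (flip x i) j = flip (flip x j) i := by
  by_cases hij : i = j
  · subst hij; rfl
  funext k
  by_cases h1 : k = i
  · subst h1
    rw [flip_ne _ hij, flip_self, flip_self, flip_ne _ hij]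
  · by_cases h2 : k = j
    · subst h2
      rw [flip_self, flip_ne _ h1, flip_ne _ h1, flip_self]
    · rw [flip_ne _ h2, flip_ne _ h1, flip_ne _ h1, flip_ne _ h2]

lemma adj_iff {n : ℕ} (x y : Fin n → Bool) :
    (hypercube n).Adj x y ↔ ∃ i, y = flip x i := by
  constructor
  · intro h
    have h' : hammingDist x y = 1 := h
    rw [hammingDist, Finset.card_eq_one] at h'
    obtain ⟨i, hi⟩ := h'
    refine ⟨i, ?_⟩
    funext j
    by_cases hj : j = i
    · subst hj
      have : j ∈ ({j} : Finset (Fin n)) := by simp
      rw [← hi] at this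
      simp only [mem_filter, mem_univ, true_and] at this
      rw [flip_self]
      cases hx : x j <;> cases hy : y j <;> simp_all
    · have : j ∉ ({i} : Finset (Fin n)) := by simpa using hj
      rw [← hi] at this
      simp only [mem_filter, mem_univ, true_and, not_not] at this
      rw [flip_ne _ hj, this]
  · rintro ⟨i, rfl⟩
    change hammingDist x (flip x i) = 1
    rw [hammingDist, Finset.card_eq_one]
    refine ⟨i, ?_⟩
    ext j
    simp only [mem_filter, mem_univ, true_and, mem_singleton]
    constructor
    · intro h
      by_contra hj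
      exact h (flip_ne _ hj).symm
    · rintro rfl
      rw [flip_self]
      cases x j <;> simp

/-- The closed neighbourhood of `x`, indexed by `Option (Fin n)`. -/
def nb {n : ℕ} (x : Fin n → Bool) : Option (Fin n) → (Fin n → Bool)
  | none => x
  | some i => flip x i

lemma nb_none {n : ℕ} (x : Fin n → Bool) : nb x none = x := rfl
lemma nb_some {n : ℕ} (x : Fin n → Bool) (i : Fin n) : nb x (some i) = flip x i := rfl

lemma nb_apply_ne {n : ℕ} (x : Fin n → Bool) (o : Option (Fin n)) (i : Fin n) (h : o ≠ some i) :
    nb x o i = x i := by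
  cases o with
  | none => rfl
  | some j => exact flip_ne _ (fun h' => h (by rw [h']))

lemma nb_flip {n : ℕ} (x : Fin n → Bool) (o : Option (Fin n)) (i : Fin n) :
    flip (nb x o) i = nb (flip x i) o := by
  cases o with
  | none => rfl
  | some j => exact flip_comm x j i

lemma nb_injective {n : ℕ} (x : Fin n → Bool) : Function.Injective (nb x) := by
  intro a b h
  cases a with
  | none =>
    cases b with
    | none => rfl
    | some j =>
      exfalso
      have := congrFun h j
      rw [nb_none, nb_some, flip_self] at this
      cases hx : x j <;> simp_all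
  | some i =>
    cases b with
    | none =>
      exfalso
      have := congrFun h i
      rw [nb_none, nb_some, flip_self] at this
      cases hx : x i <;> simp_all
    | some j =>
      by_contra hne
      have hij : i ≠ j := fun h => hne (by rw [h])
      have := congrFun h i
      rw [nb_some, nb_some, flip_self, flip_ne _ hij] at this
      cases hx : x i <;> simp_all

lemma covered_iff {n : ℕ} (c v : Fin n → Bool) :
    (v = c ∨ (hypercube n).Adj c v) ↔ ∃ o, c = nb v o := by
  constructor
  · rintro (h | h)
    · exact ⟨none, by rw [h, nb_none]⟩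
    · rw [adj_iff] at h
      obtain ⟨i, rfl⟩ := h
      exact ⟨some i, by rw [nb_some, flip_flip]⟩
  · rintro ⟨o, rfl⟩
    cases o with
    | none => left; rfl
    | some i =>
      right
      rw [adj_iff]
      exact ⟨i, by rw [nb_some, flip_flip]⟩

/-! ### The substring condition -/

lemma containsOnes_iff {n : ℕ} (s : ℕ) (x : Fin n → Bool) :
    ContainsOnes s x ↔ ∃ a : ℕ, a + s ≤ n ∧ ∀ i : Fin n, a ≤ i.1 → i.1 < a + s → x i = true := by
  constructor
  · rintro ⟨u, v, h⟩
    have hlen : n = u.length + s + v.length := by
      have := congrArg List.length h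
      simp at this
      omega
    refine ⟨u.length, by omega, ?_⟩
    intro i hi1 hi2
    have h1 : (List.ofFn x)[i.1]? = some (x i) := by
      rw [List.getElem?_ofFn]
      simp
    rw [h, List.getElem?_append_left (by simp; omega), List.getElem?_append_right hi1,
      List.getElem?_replicate] at h1
    rw [if_pos (by omega)] at h1
    exact (Option.some.inj h1).symm
  · rintro ⟨a, ha, h⟩
    refine ⟨(List.ofFn x).take a, (List.ofFn x).drop (a + s), ?_⟩
    apply List.ext_getElem?
    intro k
    rcases lt_or_ge k a with hk | hk
    · rw [List.append_assoc, List.getElem?_append_left (by simp; omega)]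
      rw [List.getElem?_take, if_pos hk]
    · rcases lt_or_ge k (a + s) with hk2 | hk2
      · rw [List.getElem?_append_left (by simp; omega), List.getElem?_append_right (by simp; omega),
          List.getElem?_replicate]
        have hkn : k < n := by omega
        rw [List.getElem?_ofFn]
        rw [if_pos (by simp; omega), dif_pos hkn]
        rw [h ⟨k, hkn⟩ hk hk2]
      · rw [List.getElem?_append_right (by simp; omega), List.getElem?_drop]
        congr 1
        simp
        omega

/-! ### The parity identity -/

open Classical in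
/-- Indicator function of a set of strings, with values in `ZMod 2`. -/
noncomputable def ind {n : ℕ} (C : Set (Fin n → Bool)) (x : Fin n → Bool) : ZMod 2 :=
  if x ∈ C then 1 else 0

/-- Number of members of `C` in the closed neighbourhood of `v`, modulo `2`. -/
noncomputable def cov {n : ℕ} (C : Set (Fin n → Bool)) (v : Fin n → Bool) : ZMod 2 :=
  ind C v + ∑ i : Fin n, ind C (flip v i)

lemma cov_eq_sum {n : ℕ} (C : Set (Fin n → Bool)) (v : Fin n → Bool) :
    cov C v = ∑ o : Option (Fin n), ind C (nb v o) := by
  rw [Fintype.sum_option]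
  rfl

lemma sum_sum_symm {n : ℕ} (F : Fin n → Fin n → ZMod 2) (hF : ∀ i j, F i j = F j i) :
    ∑ i, ∑ j, F i j = ∑ i, F i i := by
  have h1 : ∀ i, ∑ j, F i j = F i i + ∑ j ∈ univ.erase i, F i j := by
    intro i
    rw [Finset.add_sum_erase _ _ (mem_univ i)]
  rw [Finset.sum_congr rfl (fun i _ => h1 i), Finset.sum_add_distrib]
  have h2 : ∑ i, ∑ j ∈ univ.erase i, F i j = 0 := by
    rw [Finset.sum_sigma']
    refine Finset.sum_involution (fun p _ => ⟨p.2, p.1⟩) ?_ ?_ ?_ ?_
    · rintro ⟨i, j⟩ _
      simp only
      rw [hF i j]
      exact CharTwo.add_self_eq_zero _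
    · rintro ⟨i, j⟩ h _ h'
      simp only [mem_sigma, mem_univ, mem_erase, true_and, and_true] at h
      simp only [Sigma.mk.injEq, heq_eq_eq] at h'
      exact h h'.1
    · rintro ⟨i, j⟩ h
      simp only [mem_sigma, mem_univ, mem_erase, true_and, and_true] at h ⊢
      exact fun h' => h h'.symm
    · rintro ⟨i, j⟩ _
      rfl
  rw [h2, add_zero]

/-- The key identity: summing the covering numbers over a closed neighbourhood gives
`(n + 1) · [u ∈ C]` modulo `2`. -/
lemma parity {n : ℕ} (C : Set (Fin n → Bool)) (u : Fin n → Bool) :
    ∑ o : Option (Fin n), cov C (nb u o) = (n + 1 : ZMod 2) * ind C u := by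
  rw [Fintype.sum_option]
  simp only [nb_none, nb_some, cov]
  rw [Finset.sum_add_distrib, sum_sum_symm (fun i j => ind C (flip (flip u i) j))
    (fun i j => by rw [flip_comm])]
  simp only [flip_flip, Finset.sum_const, Finset.card_univ, Fintype.card_fin, nsmul_eq_mul]
  have h := CharTwo.add_self_eq_zero (∑ i : Fin n, ind C (flip u i))
  linear_combination h

/-! ### The main argument -/

section Main

variable {n : ℕ} {D C : Set (Fin n → Bool)}

/-- Uniqueness of the covering codeword extends from a down-set to the whole cube. -/
lemma unique_all (hCD : C ⊆ D)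
    (hdown : ∀ x ∈ D, ∀ i, x i = true → flip x i ∈ D)
    (hU : ∀ v ∈ D, ∀ o o', nb v o ∈ C → nb v o' ∈ C → o = o')
    (v : Fin n → Bool) (o o' : Option (Fin n)) (h : nb v o ∈ C) (h' : nb v o' ∈ C) : o = o' := by
  by_cases hv : v ∈ D
  · exact hU v hv o o' h h'
  have key : ∀ a : Option (Fin n), nb v a ∈ C → ∃ i, a = some i ∧ v i = true := by
    intro a ha
    cases a with
    | none => exact absurd (hCD ha) hv
    | some i =>
      refine ⟨i, rfl, ?_⟩
      by_contra hi
      have hi' : flip v i i = true := by
        rw [flip_self]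
        simpa using hi
      have := hdown _ (hCD ha) i hi'
      rw [nb_some, flip_flip] at this
      exact hv this
  obtain ⟨i, rfl, hi⟩ := key o h
  obtain ⟨j, rfl, hj⟩ := key o' h'
  by_contra hne
  have hij : i ≠ j := fun h => hne (by rw [h])
  have hw : flip (flip v i) j ∈ D := by
    apply hdown _ (hCD h) j
    rw [nb_some, flip_ne _ hij.symm]
    exact hj
  have h1 : nb (flip (flip v i) j) (some j) ∈ C := by
    rw [nb_some, flip_flip]; exact h
  have h2 : nb (flip (flip v i) j) (some i) ∈ C := by
    rw [nb_some, flip_comm v i j, flip_flip]; exact h'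
  have := hU _ hw _ _ h1 h2
  exact hij (Option.some.inj this).symm

lemma cov_eq_one (hU : ∀ v, ∀ o o', nb v o ∈ C → nb v o' ∈ C → o = o')
    {v : Fin n → Bool} {o : Option (Fin n)} (ho : nb v o ∈ C) : cov C v = 1 := by
  rw [cov_eq_sum, Finset.sum_eq_single o]
  · simp [ind, ho]
  · intro b _ hb
    rw [ind, if_neg]
    intro hbC
    exact hb (hU v b o hbC ho)
  · intro h
    exact absurd (mem_univ o) h

lemma cov_eq_zero {v : Fin n → Bool} (ho : ∀ o, nb v o ∉ C) : cov C v = 0 := by
  rw [cov_eq_sum]
  apply Finset.sum_eq_zero
  intro o _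
  rw [ind, if_neg (ho o)]

/-- If `n` is odd and all but one of the vertices of a closed neighbourhood are covered, then
so is the last one. -/
lemma last_covered (hn : Odd n)
    (hU : ∀ v, ∀ o o', nb v o ∈ C → nb v o' ∈ C → o = o')
    (u : Fin n → Bool) (o₀ : Option (Fin n))
    (h : ∀ o, o ≠ o₀ → ∃ p, nb (nb u o) p ∈ C) : ∃ p, nb (nb u o₀) p ∈ C := by
  by_contra hcon
  push Not at hcon
  have h0 := cov_eq_zero hcon
  have hp := parity C u
  rw [← Finset.add_sum_erase _ _ (mem_univ o₀), h0, zero_add] at hp
  have h1 : ∑ x ∈ univ.erase o₀, cov C (nb u x) = ∑ x ∈ univ.erase o₀, (1 : ZMod 2) := by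
    apply Finset.sum_congr rfl
    intro o ho
    obtain ⟨p, hp⟩ := h o (Finset.ne_of_mem_erase ho)
    exact cov_eq_one hU hp
  rw [h1] at hp
  simp only [Finset.sum_const, Finset.card_erase_of_mem (mem_univ o₀), Finset.card_univ,
    Fintype.card_option, Fintype.card_fin, add_tsub_cancel_right, nsmul_eq_mul, mul_one] at hp
  obtain ⟨k, hk⟩ := hn
  have hn2 : (n : ZMod 2) = 1 := by
    rw [hk]
    push_cast
    have : (2 : ZMod 2) = 0 := rfl
    rw [this]; ring
  rw [hn2] at hp
  have h2 : (1 + 1 : ZMod 2) = 0 := rfl
  rw [h2, zero_mul] at hp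
  exact absurd hp (by decide)

/-- If `n` is even and the closed neighbourhood of `u` is covered, then `u ∈ C`. -/
lemma mem_of_even (hn : Even n)
    (hU : ∀ v, ∀ o o', nb v o ∈ C → nb v o' ∈ C → o = o')
    (u : Fin n → Bool) (h : ∀ o, ∃ p, nb (nb u o) p ∈ C) : u ∈ C := by
  by_contra hcon
  have hp := parity C u
  have h1 : ∑ x : Option (Fin n), cov C (nb u x) = ∑ x : Option (Fin n), (1 : ZMod 2) := by
    apply Finset.sum_congr rfl
    intro o _
    obtain ⟨p, hp⟩ := h o
    exact cov_eq_one hU hp
  rw [h1, ind, if_neg hcon] at hp
  obtain ⟨k, hk⟩ := hn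
  simp only [Finset.sum_const, Finset.card_univ, Fintype.card_option, Fintype.card_fin,
    nsmul_eq_mul, mul_one, mul_zero] at hp
  have hn2 : (n : ZMod 2) = 0 := by
    rw [hk]
    push_cast
    exact CharTwo.add_self_eq_zero _
  push_cast at hp
  rw [hn2] at hp
  exact absurd hp (by decide)

/-- If exactly the members of `A` index covered vertices of the closed neighbourhood of `u`,
then `|A| = (n + 1) · [u ∈ C]` modulo `2`. -/
lemma parity_card
    (hU : ∀ v, ∀ o o', nb v o ∈ C → nb v o' ∈ C → o = o')
    (u : Fin n → Bool) (A : Finset (Option (Fin n)))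
    (h1 : ∀ o ∈ A, ∃ p, nb (nb u o) p ∈ C) (h2 : ∀ o ∉ A, ∀ p, nb (nb u o) p ∉ C) :
    (A.card : ZMod 2) = (n + 1 : ZMod 2) * ind C u := by
  rw [← parity C u]
  have h3 : ∑ x : Option (Fin n), cov C (nb u x) = ∑ x ∈ A, cov C (nb u x) := by
    symm
    apply Finset.sum_subset (Finset.subset_univ A)
    intro x _ hx
    exact cov_eq_zero (h2 x hx)
  have h4 : ∑ x ∈ A, cov C (nb u x) = ∑ x ∈ A, (1 : ZMod 2) := by
    apply Finset.sum_congr rfl
    intro o ho
    obtain ⟨p, hp⟩ := h1 o ho
    exact cov_eq_one hU hp
  rw [h3, h4]
  simp

/-- If every vertex is covered by exactly one codeword then `n + 1` is a power of two. -/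
lemma pow_two_of_perfect
    (hU : ∀ v, ∀ o o', nb v o ∈ C → nb v o' ∈ C → o = o')
    (hE : ∀ v, ∃ o, nb v o ∈ C) : ∃ p : ℕ, n + 1 = 2 ^ p := by
  have hinv : ∀ (x : Fin n → Bool) (o : Option (Fin n)), nb (nb x o) o = x := by
    intro x o
    cases o with
    | none => rfl
    | some i => exact flip_flip x i
  have hbij : Function.Bijective (fun p : C × Option (Fin n) => nb p.1.1 p.2) := by
    constructor
    · rintro ⟨⟨c, hc⟩, o⟩ ⟨⟨c', hc'⟩, o'⟩ h
      simp only at h
      have h1 : nb (nb c o) o ∈ C := by rw [hinv]; exact hc
      have h2 : nb (nb c o) o' ∈ C := by rw [h, hinv]; exact hc'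
      have h3 := hU _ _ _ h1 h2
      subst h3
      have h4 : c = c' := by
        rw [← hinv c o, h, hinv]
      subst h4
      rfl
    · intro v
      obtain ⟨o, ho⟩ := hE v
      exact ⟨(⟨nb v o, ho⟩, o), hinv v o⟩
  have hcard := Nat.card_congr (Equiv.ofBijective _ hbij)
  rw [Nat.card_prod, Nat.card_eq_fintype_card (α := Option (Fin n)),
    Nat.card_eq_fintype_card (α := Fin n → Bool)] at hcard
  simp only [Fintype.card_option, Fintype.card_fin, Fintype.card_pi, Fintype.card_bool,
    Finset.prod_const, Finset.card_univ] at hcard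
  have hdvd : n + 1 ∣ 2 ^ n := ⟨Nat.card C, by rw [← hcard]; ring⟩
  obtain ⟨m, _, hm⟩ := (Nat.dvd_prime_pow Nat.prime_two).1 hdvd
  exact ⟨m, hm⟩

end Main

lemma core (n s : ℕ) (hn3 : 3 ≤ n) (hs2 : 2 ≤ s) (D C : Set (Fin n → Bool))
    (hmem : ∀ x : Fin n → Bool, (x ∈ D ↔
      ∀ a : ℕ, a + s ≤ n → ∃ i : Fin n, a ≤ i.1 ∧ i.1 < a + s ∧ x i = false))
    (hCD : C ⊆ D) (hEx : ∀ v ∈ D, ∃ o, nb v o ∈ C)
    (hU0 : ∀ v ∈ D, ∀ o o', nb v o ∈ C → nb v o' ∈ C → o = o') :
    (∀ v, ∀ o o', nb v o ∈ C → nb v o' ∈ C → o = o') ∧ (∀ v, ∃ o, nb v o ∈ C) := by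
  have hdown : ∀ x ∈ D, ∀ i, x i = true → flip x i ∈ D := by
    intro x hx i hi
    rw [hmem] at hx ⊢
    intro a ha
    obtain ⟨j, hj1, hj2, hj3⟩ := hx a ha
    refine ⟨j, hj1, hj2, ?_⟩
    have : j ≠ i := by
      rintro rfl
      rw [hi] at hj3
      exact absurd hj3 (by decide)
    rw [flip_ne _ this, hj3]
  have hU : ∀ v, ∀ o o', nb v o ∈ C → nb v o' ∈ C → o = o' :=
    fun v o o' => unique_all hCD hdown hU0 v o o'
  refine ⟨hU, ?_⟩
  -- a string outside `D` contains a window of ones
  have hout : ∀ x : Fin n → Bool, x ∉ D →
      ∃ a : ℕ, a + s ≤ n ∧ ∀ i : Fin n, a ≤ i.1 → i.1 < a + s → x i = true := by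
    intro x hx
    by_contra hcon
    apply hx
    rw [hmem]
    intro a ha
    by_contra hcon2
    apply hcon
    refine ⟨a, ha, ?_⟩
    intro i hi1 hi2
    by_contra hi3
    exact hcon2 ⟨i, hi1, hi2, by simpa using hi3⟩
  rcases Nat.even_or_odd n with hne | hno
  · -- `n` even: contradiction
    exfalso
    obtain ⟨k, hk⟩ := hne
    have hn4 : 4 ≤ n := by omega
    have hzC : (fun _ => false : Fin n → Bool) ∈ C := by
      apply mem_of_even ⟨k, hk⟩ hU
      intro o
      apply hEx
      rw [hmem]
      intro a ha
      by_cases h : o = some ⟨a, by omega⟩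
      · refine ⟨⟨a + 1, by omega⟩, by simp only; omega, by simp only; omega, ?_⟩
        rw [nb_apply_ne]
        rw [h]
        intro h'
        have := congrArg Fin.val (Option.some.inj h')
        simp only at this
        omega
      · refine ⟨⟨a, by omega⟩, le_refl _, by simp only; omega, ?_⟩
        rw [nb_apply_ne _ _ _ h]
    have hone : ∀ i, flip (fun _ => false : Fin n → Bool) i ∉ C := by
      intro i hi
      have := hU (fun _ => false) none (some i) hzC hi
      exact absurd this (by simp)
    rcases Nat.lt_or_ge s 3 with hs3 | hs3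
    · -- `s = 2`
      have hs : s = 2 := by omega
      subst hs
      have key := parity_card hU (flip (fun _ => false) ⟨1, by omega⟩)
        (univ \ {some ⟨0, by omega⟩, some ⟨2, by omega⟩}) ?_ ?_
      · rw [Finset.card_sdiff_of_subset (Finset.subset_univ _), Finset.card_pair (by simp),
          Finset.card_univ, Fintype.card_option, Fintype.card_fin, ind, if_neg (hone _),
          mul_zero] at key
        have h1 : n + 1 - 2 = 2 * (k - 1) + 1 := by omega
        rw [h1] at key
        push_cast at key
        have h2 : (2 : ZMod 2) = 0 := rfl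
        rw [h2, zero_mul, zero_add] at key
        exact absurd key (by decide)
      · intro o ho
        simp only [mem_sdiff, mem_univ, mem_insert, mem_singleton, true_and, not_or] at ho
        apply hEx
        rw [hmem]
        intro a ha
        rcases Nat.lt_or_ge a 1 with h0 | h0
        · have ha0 : a = 0 := by omega
          subst ha0
          refine ⟨⟨0, by omega⟩, by simp, by simp, ?_⟩
          rw [nb_apply_ne _ _ _ ho.1, flip_ne _ (by simp)]
        · rcases Nat.lt_or_ge a 2 with h1 | h1
          · have ha1 : a = 1 := by omega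
            subst ha1
            refine ⟨⟨2, by omega⟩, by simp, by simp, ?_⟩
            rw [nb_apply_ne _ _ _ ho.2, flip_ne _ (by simp)]
          · by_cases h2 : o = some ⟨a, by omega⟩
            · refine ⟨⟨a + 1, by omega⟩, by simp, by simp, ?_⟩
              rw [nb_apply_ne, flip_ne _ (by simp; omega)]
              rw [h2]
              simp
            · refine ⟨⟨a, by omega⟩, by simp, by simp, ?_⟩
              rw [nb_apply_ne _ _ _ h2, flip_ne _ (by simp; omega)]
      · intro o ho p hp
        simp only [mem_sdiff, mem_univ, mem_insert, mem_singleton, true_and, not_not] at ho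
        rcases ho with rfl | rfl
        · obtain ⟨i, _, hi2, hi3⟩ := (hmem _).1 (hCD hp) 0 (by omega)
          by_cases hpi : p = some i
          · rcases Nat.lt_or_ge i.1 1 with h0 | h0
            · have hi : i = ⟨0, by omega⟩ := Fin.ext (by simp only; omega)
              rw [hpi, hi, nb_some, nb_some, flip_flip] at hp
              exact hone _ hp
            · have hi : i = ⟨1, by omega⟩ := Fin.ext (by simp only; omega)
              rw [hpi, hi, nb_some, nb_some, flip_comm, flip_flip] at hp
              exact hone _ hp
          · rw [nb_apply_ne _ _ _ hpi] at hi3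
            rcases Nat.lt_or_ge i.1 1 with h0 | h0
            · have hi : i = ⟨0, by omega⟩ := Fin.ext (by simp only; omega)
              rw [hi, nb_some, flip_self, flip_ne _ (by simp)] at hi3
              exact absurd hi3 (by decide)
            · have hi : i = ⟨1, by omega⟩ := Fin.ext (by simp only; omega)
              rw [hi, nb_some, flip_ne _ (by simp), flip_self] at hi3
              exact absurd hi3 (by decide)
        · obtain ⟨i, hi1, hi2, hi3⟩ := (hmem _).1 (hCD hp) 1 (by omega)
          by_cases hpi : p = some i
          · rcases Nat.lt_or_ge i.1 2 with h0 | h0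
            · have hi : i = ⟨1, by omega⟩ := Fin.ext (by simp only; omega)
              rw [hpi, hi, nb_some, nb_some, flip_comm, flip_flip] at hp
              exact hone _ hp
            · have hi : i = ⟨2, by omega⟩ := Fin.ext (by simp only; omega)
              rw [hpi, hi, nb_some, nb_some, flip_flip] at hp
              exact hone _ hp
          · rw [nb_apply_ne _ _ _ hpi] at hi3
            rcases Nat.lt_or_ge i.1 2 with h0 | h0
            · have hi : i = ⟨1, by omega⟩ := Fin.ext (by simp only; omega)
              rw [hi, nb_some, flip_ne _ (by simp), flip_self] at hi3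
              exact absurd hi3 (by decide)
            · have hi : i = ⟨2, by omega⟩ := Fin.ext (by simp only; omega)
              rw [hi, nb_some, flip_self, flip_ne _ (by simp)] at hi3
              exact absurd hi3 (by decide)
    · -- `s ≥ 3`
      apply hone ⟨0, by omega⟩
      apply mem_of_even ⟨k, hk⟩ hU
      intro o
      apply hEx
      rw [hmem]
      intro a ha
      rcases Nat.eq_zero_or_pos a with h0 | h0
      · subst h0
        by_cases h : o = some ⟨1, by omega⟩
        · refine ⟨⟨2, by omega⟩, by simp, by simp only; omega, ?_⟩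
          rw [nb_apply_ne, flip_ne _ (by simp)]
          rw [h]
          simp
        · refine ⟨⟨1, by omega⟩, by simp, by simp only; omega, ?_⟩
          rw [nb_apply_ne _ _ _ h, flip_ne _ (by simp)]
      · by_cases h : o = some ⟨a, by omega⟩
        · refine ⟨⟨a + 1, by omega⟩, by simp, by simp only; omega, ?_⟩
          rw [nb_apply_ne, flip_ne _ (by simp)]
          rw [h]
          simp
        · refine ⟨⟨a, by omega⟩, by simp, by simp only; omega, ?_⟩
          rw [nb_apply_ne _ _ _ h, flip_ne _ (by simp; omega)]
  · rcases Nat.lt_or_ge n (2 * s) with hlt | hge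
    · -- `n ≤ 2 s - 1`: the middle coordinate lies in all windows
      intro v
      by_cases hv : v ∈ D
      · exact hEx v hv
      have hm : (n - 1) / 2 < n := by omega
      obtain ⟨k, hk⟩ := hno
      -- strings without the middle bit are in `D`
      have hmid : ∀ x : Fin n → Bool, x ⟨(n - 1) / 2, hm⟩ = false → x ∈ D := by
        intro x hx
        rw [hmem]
        intro a ha
        exact ⟨⟨(n - 1) / 2, hm⟩, by simp only; omega, by simp only; omega, hx⟩
      have hvm : v ⟨(n - 1) / 2, hm⟩ = true := by
        by_contra h
        exact hv (hmid v (by simpa using h))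
      have := last_covered ⟨k, hk⟩ hU (flip v ⟨(n - 1) / 2, hm⟩) (some ⟨(n - 1) / 2, hm⟩) ?_
      · rw [nb_some, flip_flip] at this
        exact this
      · intro o ho
        apply hEx
        apply hmid
        cases o with
        | none => rw [nb_none, flip_self, hvm]; rfl
        | some i =>
          have hi : (⟨(n - 1) / 2, hm⟩ : Fin n) ≠ i := fun h => ho (by rw [h])
          rw [nb_some, flip_ne _ hi, flip_self, hvm]; rfl
    · -- `n ≥ 2 s`: contradiction
      exfalso
      obtain ⟨k, hk⟩ := hno
      rcases Nat.lt_or_ge s 3 with hs3 | hs3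
      · -- `s = 2`, `n ≥ 5`
        have hs : s = 2 := by omega
        subst hs
        have hA : ∃ i : Fin n, i.1 < 2 ∧ flip (fun _ => false : Fin n → Bool) i ∈ C := by
          have h1 : ∃ p, nb (nb (flip (fun _ => false : Fin n → Bool) ⟨0, by omega⟩)
              (some ⟨1, by omega⟩)) p ∈ C := by
            apply last_covered ⟨k, hk⟩ hU
            intro o' ho'
            apply hEx
            rw [hmem]
            intro a ha
            rcases Nat.eq_zero_or_pos a with h0 | h0
            · subst h0
              refine ⟨⟨1, by omega⟩, by simp, by simp, ?_⟩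
              rw [nb_apply_ne _ _ _ ho', flip_ne _ (by simp)]
            · by_cases h : o' = some ⟨a, by omega⟩
              · refine ⟨⟨a + 1, by omega⟩, by simp, by simp, ?_⟩
                rw [nb_apply_ne, flip_ne _ (by simp)]
                rw [h]
                simp
              · refine ⟨⟨a, by omega⟩, by simp, by simp, ?_⟩
                rw [nb_apply_ne _ _ _ h, flip_ne _ (by simp; omega)]
          obtain ⟨p, hp⟩ := h1
          obtain ⟨i, _, hi2, hi3⟩ := (hmem _).1 (hCD hp) 0 (by omega)
          have hpi : p = some i := by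
            by_contra hpi
            rw [nb_apply_ne _ _ _ hpi] at hi3
            rcases Nat.lt_or_ge i.1 1 with h0 | h0
            · have hi : i = ⟨0, by omega⟩ := Fin.ext (by simp only; omega)
              rw [hi, nb_some, flip_ne _ (by simp), flip_self] at hi3
              exact absurd hi3 (by decide)
            · have hi : i = ⟨1, by omega⟩ := Fin.ext (by simp only; omega)
              rw [hi, nb_some, flip_self, flip_ne _ (by simp)] at hi3
              exact absurd hi3 (by decide)
          rcases Nat.lt_or_ge i.1 1 with h0 | h0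
          · have hi : i = ⟨0, by omega⟩ := Fin.ext (by simp only; omega)
            rw [hpi, hi, nb_some, nb_some, flip_comm, flip_flip] at hp
            exact ⟨⟨1, by omega⟩, by simp, hp⟩
          · have hi : i = ⟨1, by omega⟩ := Fin.ext (by simp only; omega)
            rw [hpi, hi, nb_some, nb_some, flip_flip] at hp
            exact ⟨⟨0, by omega⟩, by simp, hp⟩
        have hB : ∃ i : Fin n, n - 2 ≤ i.1 ∧ flip (fun _ => false : Fin n → Bool) i ∈ C := by
          have h1 : ∃ p, nb (nb (flip (fun _ => false : Fin n → Bool) ⟨n - 1, by omega⟩)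
              (some ⟨n - 2, by omega⟩)) p ∈ C := by
            apply last_covered ⟨k, hk⟩ hU
            intro o' ho'
            apply hEx
            rw [hmem]
            intro a ha
            rcases Nat.lt_or_ge a (n - 2) with h0 | h0
            · by_cases h : o' = some ⟨a, by omega⟩
              · refine ⟨⟨a + 1, by omega⟩, by simp, by simp, ?_⟩
                rw [nb_apply_ne, flip_ne _ (by simp; omega)]
                rw [h]
                simp
              · refine ⟨⟨a, by omega⟩, by simp, by simp, ?_⟩
                rw [nb_apply_ne _ _ _ h, flip_ne _ (by simp; omega)]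
            · refine ⟨⟨n - 2, by omega⟩, by simp only; omega, by simp only; omega, ?_⟩
              rw [nb_apply_ne _ _ _ ho', flip_ne _ (by simp; omega)]
          obtain ⟨p, hp⟩ := h1
          obtain ⟨i, hi1, hi2, hi3⟩ := (hmem _).1 (hCD hp) (n - 2) (by omega)
          have hpi : p = some i := by
            by_contra hpi
            rw [nb_apply_ne _ _ _ hpi] at hi3
            rcases Nat.lt_or_ge i.1 (n - 1) with h0 | h0
            · have hi : i = ⟨n - 2, by omega⟩ := Fin.ext (by simp only; omega)
              rw [hi, nb_some, flip_self, flip_ne _ (by simp; omega)] at hi3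
              exact absurd hi3 (by decide)
            · have hi : i = ⟨n - 1, by omega⟩ := Fin.ext (by simp only; omega)
              rw [hi, nb_some, flip_ne _ (by simp; omega), flip_self] at hi3
              exact absurd hi3 (by decide)
          rcases Nat.lt_or_ge i.1 (n - 1) with h0 | h0
          · have hi : i = ⟨n - 2, by omega⟩ := Fin.ext (by simp only; omega)
            rw [hpi, hi, nb_some, nb_some, flip_flip] at hp
            exact ⟨⟨n - 1, by omega⟩, by simp only; omega, hp⟩
          · have hi : i = ⟨n - 1, by omega⟩ := Fin.ext (by simp only; omega)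
            rw [hpi, hi, nb_some, nb_some, flip_comm, flip_flip] at hp
            exact ⟨⟨n - 2, by omega⟩, by simp, hp⟩
        obtain ⟨i, hi, hiC⟩ := hA
        obtain ⟨j, hj, hjC⟩ := hB
        have h3 := hU (fun _ => false) (some i) (some j) hiC hjC
        have h4 := congrArg Fin.val (Option.some.inj h3)
        omega
      · -- `s ≥ 3`
        set W : Fin n → Bool := fun i => decide (i.1 < s) with hW
        have hWt : ∀ i : Fin n, i.1 < s → W i = true := by
          intro i hi
          simp [hW, hi]
        have hWf : ∀ i : Fin n, s ≤ i.1 → W i = false := by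
          intro i hi
          simp only [hW, decide_eq_false_iff_not, not_lt]
          exact hi
        -- every neighbour of `W` obtained by adding a bit is covered
        have hcov : ∀ o : Option (Fin n), (∀ i : Fin n, i.1 < s → o ≠ some i) →
            ∃ i : Fin n, i.1 < s ∧ nb (flip W i) o ∈ C := by
          intro o ho
          have h1 : ∃ p, nb (nb (flip (nb W o) ⟨s - 1, by omega⟩) (some ⟨s - 1, by omega⟩)) p
              ∈ C := by
            apply last_covered ⟨k, hk⟩ hU
            intro o' ho'
            apply hEx
            rw [hmem]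
            intro a ha
            rcases Nat.lt_or_ge a s with has | has
            · refine ⟨⟨s - 1, by omega⟩, by simp only; omega, by simp only; omega, ?_⟩
              rw [nb_apply_ne _ _ _ ho', flip_self, nb_apply_ne _ _ _ (ho _ (by simp only; omega)),
                hWt _ (by simp only; omega)]
              rfl
            · have hval : ∀ i : Fin n, s ≤ i.1 → o ≠ some i → o' ≠ some i →
                  nb (flip (nb W o) ⟨s - 1, by omega⟩) o' i = false := by
                intro i hi hoi hoi'
                rw [nb_apply_ne _ _ _ hoi', flip_ne, nb_apply_ne _ _ _ hoi, hWf _ hi]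
                intro h
                have := congrArg Fin.val h
                simp only at this
                omega
              by_cases ha0 : o ≠ some ⟨a, by omega⟩ ∧ o' ≠ some ⟨a, by omega⟩
              · exact ⟨_, by simp, by simp only; omega, hval _ has ha0.1 ha0.2⟩
              by_cases ha1 : o ≠ some ⟨a + 1, by omega⟩ ∧ o' ≠ some ⟨a + 1, by omega⟩
              · exact ⟨_, by simp, by simp only; omega, hval _ (by simp only; omega) ha1.1 ha1.2⟩
              by_cases ha2 : o ≠ some ⟨a + 2, by omega⟩ ∧ o' ≠ some ⟨a + 2, by omega⟩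
              · exact ⟨_, by simp, by simp only; omega, hval _ (by simp only; omega) ha2.1 ha2.2⟩
              exfalso
              have h01 : (some ⟨a, by omega⟩ : Option (Fin n)) ≠ some ⟨a + 1, by omega⟩ := by simp
              have h02 : (some ⟨a, by omega⟩ : Option (Fin n)) ≠ some ⟨a + 2, by omega⟩ := by simp
              have h12 : (some ⟨a + 1, by omega⟩ : Option (Fin n)) ≠ some ⟨a + 2, by omega⟩ := by
                simp
              rw [not_and_or, not_not, not_not] at ha0 ha1 ha2
              rcases ha0 with h0 | h0 <;> rcases ha1 with h1 | h1 <;> rcases ha2 with h2 | h2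
              · exact h01 (h0.symm.trans h1)
              · exact h01 (h0.symm.trans h1)
              · exact h02 (h0.symm.trans h2)
              · exact h12 (h1.symm.trans h2)
              · exact h12 (h1.symm.trans h2)
              · exact h02 (h0.symm.trans h2)
              · exact h01 (h0.symm.trans h1)
              · exact h01 (h0.symm.trans h1)
          rw [nb_some, flip_flip] at h1
          obtain ⟨p, hp⟩ := h1
          obtain ⟨i, _, hi2, hi3⟩ := (hmem _).1 (hCD hp) 0 (by omega)
          by_cases hpi : p = some i
          · refine ⟨i, by omega, ?_⟩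
            rw [hpi, nb_some, nb_flip] at hp
            exact hp
          · exfalso
            rw [nb_apply_ne _ _ _ hpi, nb_apply_ne _ _ _ (ho _ (by omega)),
              hWt _ (by omega)] at hi3
            exact absurd hi3 (by decide)
        -- index set of size `n - s + 1`
        let idx : Fin (n - s + 1) → Option (Fin n) := fun t =>
          if h : t.1 = 0 then none else some ⟨s + t.1 - 1, by omega⟩
        have hidx : ∀ t, ∀ i : Fin n, i.1 < s → idx t ≠ some i := by
          intro t i hi h
          simp only [idx] at h
          split_ifs at h with h0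
          have := congrArg Fin.val (Option.some.inj h)
          simp only at this
          omega
        have hinj : Function.Injective idx := by
          intro t t' h
          simp only [idx] at h
          split_ifs at h with h0 h1 h1
          · exact Fin.ext (by omega)
          · have := congrArg Fin.val (Option.some.inj h)
            simp only at this
            exact Fin.ext (by omega)
        choose φ hφ1 hφ2 using fun t => hcov (idx t) (hidx t)
        have hφinj : Function.Injective (fun t => (⟨(φ t).1, hφ1 t⟩ : Fin s)) := by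
          intro t t' h
          have h1 : φ t = φ t' := by
            have := congrArg Fin.val h
            simp only at this
            exact Fin.ext this
          apply hinj
          have h2 := hφ2 t'
          rw [← h1] at h2
          exact hU _ _ _ (hφ2 t) h2
        have := Fintype.card_le_of_injective _ hφinj
        simp only [Fintype.card_fin] at this
        omega

theorem result : ∀ n s : ℕ, 3 ≤ n → 2 ≤ s →
    ∀ C : Set {x : Fin n → Bool | ¬ ContainsOnes s x},
      IsPerfectCode (genFibCube n s) C →
        (∃ p : ℕ, n + 1 = 2 ^ p) ∧ IsPerfectCode (hypercube n) (Subtype.val '' C) := by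
  intro n s hn3 hs2 C hC
  have hCD : Subtype.val '' C ⊆ {x : Fin n → Bool | ¬ ContainsOnes s x} := by
    rintro _ ⟨x, _, rfl⟩
    exact x.2
  have hmem : ∀ x : Fin n → Bool, (x ∈ {x : Fin n → Bool | ¬ ContainsOnes s x} ↔
      ∀ a : ℕ, a + s ≤ n → ∃ i : Fin n, a ≤ i.1 ∧ i.1 < a + s ∧ x i = false) := by
    intro x
    change ¬ ContainsOnes s x ↔ _
    rw [containsOnes_iff]
    constructor
    · intro h a ha
      by_contra hcon
      apply h
      refine ⟨a, ha, ?_⟩
      intro i hi1 hi2
      by_contra hi
      exact hcon ⟨i, hi1, hi2, by simpa using hi⟩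
    · rintro h ⟨a, ha, h'⟩
      obtain ⟨i, hi1, hi2, hi3⟩ := h a ha
      rw [h' i hi1 hi2] at hi3
      exact absurd hi3 (by decide)
  have hEx : ∀ v ∈ {x : Fin n → Bool | ¬ ContainsOnes s x}, ∃ o, nb v o ∈ Subtype.val '' C := by
    intro v hv
    obtain ⟨c, ⟨hc, hcv⟩, _⟩ := hC ⟨v, hv⟩
    have h1 : v = c.1 ∨ (hypercube n).Adj c.1 v := by
      rcases hcv with h | h
      · left; rw [← h]
      · right; exact h
    rw [covered_iff] at h1
    obtain ⟨o, ho⟩ := h1
    exact ⟨o, by rw [← ho]; exact ⟨c, hc, rfl⟩⟩
  have hU0 : ∀ v ∈ {x : Fin n → Bool | ¬ ContainsOnes s x}, ∀ o o',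
      nb v o ∈ Subtype.val '' C → nb v o' ∈ Subtype.val '' C → o = o' := by
    intro v hv o o' ho ho'
    obtain ⟨c, _, huniq⟩ := hC ⟨v, hv⟩
    have key : ∀ a, nb v a ∈ Subtype.val '' C → nb v a = c.1 := by
      rintro a ⟨x, hx, hxa⟩
      have h1 : v = x.1 ∨ (hypercube n).Adj x.1 v := by
        rw [covered_iff]; exact ⟨a, hxa⟩
      have h2 : x = c := by
        apply huniq
        refine ⟨hx, ?_⟩
        rcases h1 with h | h
        · left; exact Subtype.ext h
        · right; exact h
      rw [← hxa, h2]
    exact nb_injective v ((key o ho).trans (key o' ho').symm)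
  obtain ⟨hU, hall⟩ := core n s hn3 hs2 _ _ hmem hCD hEx hU0
  refine ⟨pow_two_of_perfect hU hall, ?_⟩
  intro v
  obtain ⟨o, ho⟩ := hall v
  refine ⟨nb v o, ⟨ho, (covered_iff _ _).2 ⟨o, rfl⟩⟩, ?_⟩
  rintro c ⟨hc, hcv⟩
  obtain ⟨o', rfl⟩ := (covered_iff _ _).1 hcv
  rw [hU v o' o hc ho]

end Pool.Agent.Results.MP_87e4a0_co.PerfectCodesFibonacci
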